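import Pool.Agent.V5helper39.WR.Stm

/-!
# Project WR, job ONE
-/

set_option autoImplicit false

open Finset MeasureTheory ProbabilityTheory Filter

namespace Pool.Agent.V5helper75.WR

open Pool.Agent.V5helper43.WP (cw)
open Pool.Agent.V5helper39.WQ Pool.Agent.V5helper39.WR

theorem ev_pow {A C a b : ℝ} (_hA : 0 ≤ A) (hC : 0 < C) (ha : 0 ≤ a) (hab : a < b) :
    ∀ᶠ n : ℕ in atTop, A * (n : ℝ) ^ a + 2 ≤ C * (n : ℝ) ^ b := by
  have h1 : Tendsto (fun n : ℕ => (n : ℝ) ^ (b - a)) atTop atTop :=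
    (tendsto_rpow_atTop (by linarith : (0 : ℝ) < b - a)).comp tendsto_natCast_atTop_atTop
  filter_upwards [h1.eventually_ge_atTop ((A + 2) / C), eventually_ge_atTop 1] with n hn hn1
  have hn0 : (1 : ℝ) ≤ n := by exact_mod_cast hn1
  have h2 : (1 : ℝ) ≤ (n : ℝ) ^ a := Real.one_le_rpow hn0 ha
  have h3 : (n : ℝ) ^ b = (n : ℝ) ^ a * (n : ℝ) ^ (b - a) := by
    rw [← Real.rpow_add (by linarith)]
    congr 1
    ring
  rw [div_le_iff₀ hC] at hn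
  calc A * (n : ℝ) ^ a + 2 ≤ (n : ℝ) ^ a * (A + 2) := by nlinarith
    _ ≤ (n : ℝ) ^ a * ((n : ℝ) ^ (b - a) * C) := mul_le_mul_of_nonneg_left hn (by linarith)
    _ = C * (n : ℝ) ^ b := by rw [h3]; ring

theorem t_ONE (h1 : S_GRD2) (h2 : S_WIN2) (h3 : S_DEP2) (h4 : S_REP2) (h5 : S_PROB2) : S_ONE := by
  intro k q s c τa τg τb hk hq hs hL hc hτa hag hτg hgb hbk
  obtain ⟨m, rfl⟩ : ∃ m, s = 2 + m := ⟨s - 2, by omega⟩
  have hm : 1 ≤ m := by omega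
  have hmk : (k : ℝ) - 1 ≤ m := by
    have : k ≤ m + 1 := by omega
    have h : (k : ℝ) ≤ m + 1 := by exact_mod_cast this
    linarith
  have hk2 : (2 : ℝ) ≤ k := by exact_mod_cast hk
  have hτg0 : 0 < τg := by linarith
  have hτb0 : 0 < τb := by linarith
  obtain ⟨K, hK, hG⟩ := h1 k q (q * (m + 1)) τg hk hq (Nat.mul_pos hq (by omega)) (Dvd.intro _ rfl) hτg
    (by linarith)
  obtain ⟨β, hβ⟩ : ∃ β, β = ((k : ℝ) - 1) * τg := ⟨_, rfl⟩
  have hβ0 : 0 ≤ β := by rw [hβ]; exact mul_nonneg (by linarith) hτg0.le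
  have hβ1 : β < ((k : ℝ) - 1) * τb := by rw [hβ]; exact mul_lt_mul_of_pos_left hgb (by linarith)
  have hβ2 : β < m * τb := hβ1.trans_le (mul_le_mul_of_nonneg_right hmk hτb0.le)
  obtain ⟨n₀, hn₀⟩ := h5 k q m (2 * K) τb β c hk hq hm (by omega) hc hτb0 hbk hβ0 hβ1 hβ2
  have hq0 : (0 : ℝ) < q := by exact_mod_cast hq
  have hm0 : (0 : ℝ) < m := by exact_mod_cast hm
  -- large numbers
  obtain ⟨A, hA⟩ : ∃ A : ℝ, A = (2 * q : ℝ) ^ τa := ⟨_, rfl⟩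
  have hA0 : 0 ≤ A := by rw [hA]; positivity
  have e1 := ev_pow (C := 1) hA0 one_pos hτa hag
  have e2 := ev_pow (C := 1 / (8 * (m : ℝ))) hA0 (by positivity) hτa (hag.trans hgb)
  have e3 := ev_pow (A := (q : ℝ)) (C := 1 / (8 * (m : ℝ))) hq0.le (by positivity) le_rfl hτb0
  obtain ⟨N₁, hN₁⟩ := eventually_atTop.1 (e1.and (e2.and e3))
  obtain ⟨N₂, hN₂⟩ : ∃ N₂, N₂ = N₁ + n₀ + K + 4 * q ^ 2 + 2 := ⟨_, rfl⟩
  refine ⟨2 * ((2 + m) * q ^ k) + 2 * q * (N₂ + 1) + 2 * q, ?_⟩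
  intro Ω _ μ _ θ hmeas hind hle' n hn hdvd hdist
  obtain ⟨t, ht⟩ : ∃ t : ℕ → Ω → ℕ, t = fun x ω => θ x ω / q := ⟨_, rfl⟩
  have hqt : ∀ x ω, q * t x ω ≤ x ^ (k - 1) := fun x ω => by
    rw [ht]; exact (Nat.mul_div_le _ _).trans (hle' x ω)
  have htm : ∀ x, Measurable (t x) := fun x => by
    rw [ht]
    exact (measurable_of_countable (fun n : ℕ => n / q)).comp (hmeas x)
  have hti : iIndepFun t μ := by
    rw [ht]
    exact hind.comp (fun _ n => n / q) (fun _ => measurable_of_countable _)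
  -- residues
  obtain ⟨ρ, hρ⟩ := hL n
  obtain ⟨r', hr'⟩ : ∃ r' : ℕ → ℕ, r' = fun l => if h : l < 2 + m then ρ ⟨l, h⟩ % q else 0 := ⟨_, rfl⟩
  have hr'q : ∀ l, r' l < q := by
    intro l
    rw [hr']
    dsimp only
    split_ifs with h
    · exact Nat.mod_lt _ (by omega)
    · omega
  obtain ⟨r, hr⟩ : ∃ r : ℕ → ℕ, r = fun l => r' (2 + (l - 1)) := ⟨_, rfl⟩
  have hrq : ∀ l, r l < q := fun l => by rw [hr]; exact hr'q _
  have hsum : ∑ l ∈ range 2, r' l ^ k + ∑ l ∈ range m, r (l + 1) ^ k = ∑ l ∈ range (2 + m), r' l ^ k := by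
    rw [sum_range_add]
    congr 1
    refine sum_congr rfl fun l _ => ?_
    rw [hr]
    simp
  have hmod : ∑ l ∈ range (2 + m), r' l ^ k ≡ n [MOD q] := by
    rw [← Fin.sum_univ_eq_sum_range (fun l => r' l ^ k) (2 + m)]
    refine Nat.ModEq.trans ?_ hρ
    refine Nat.ModEq.sum fun i _ => ?_
    rw [hr']
    dsimp only
    rw [dif_pos i.2]
    exact (Nat.mod_modEq _ _).pow k
  have hle : ∑ l ∈ range (2 + m), r' l ^ k ≤ (2 + m) * q ^ k := by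
    refine (sum_le_card_nsmul _ _ (q ^ k) fun l _ => Nat.pow_le_pow_left (hr'q l).le k).trans ?_
    rw [card_range, smul_eq_mul]
  obtain ⟨σ, hσ⟩ : ∃ σ, σ = ∑ l ∈ range (2 + m), r' l ^ k := ⟨_, rfl⟩
  rw [← hσ] at hsum hmod hle
  have hσn : σ ≤ n := by omega
  obtain ⟨n', hn'⟩ : q ∣ n - σ := (Nat.modEq_iff_dvd' hσn).1 hmod
  have hnn : n = q * n' + σ := by omega
  have hn2 : n ≤ 2 * q * n' := by
    have h5 : 2 * q * n' = 2 * (q * n') := by ring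
    have h6 : q ^ k = q ^ k := rfl
    omega
  have hn'N : N₂ ≤ n' := by
    by_contra hcon
    have h5 : q * n' ≤ q * N₂ := Nat.mul_le_mul_left _ (by omega)
    have h6 : 2 * q * (N₂ + 1) = 2 * (q * N₂) + 2 * q := by ring
    omega
  have hn'n : n' ≤ n := by
    have : n' ≤ q * n' := Nat.le_mul_of_pos_left _ hq
    omega
  obtain ⟨f1, f2, f3⟩ := hN₁ n' (by omega)
  have hn'R : (1 : ℝ) ≤ n' := by exact_mod_cast (by omega : 1 ≤ n')
  have hn'0 : (0 : ℝ) < n' := by linarith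
  have hnR : (n : ℝ) ≤ 2 * q * n' := by exact_mod_cast hn2
  have hnn'R : (n' : ℝ) ≤ n := by exact_mod_cast hn'n
  have hnτa : (n : ℝ) ^ τa ≤ A * (n' : ℝ) ^ τa := by
    rw [hA, ← Real.mul_rpow (by positivity) hn'0.le]
    exact Real.rpow_le_rpow (Nat.cast_nonneg _) hnR hτa
  obtain ⟨Y, hY⟩ : ∃ Y, Y = ⌊(n' : ℝ) ^ τg⌋₊ := ⟨_, rfl⟩
  obtain ⟨X, hX⟩ : ∃ X, X = ⌊(n' : ℝ) ^ τb / (8 * m)⌋₊ := ⟨_, rfl⟩
  obtain ⟨B, hB⟩ : ∃ B, B = ⌈(n : ℝ) ^ τa⌉₊ := ⟨_, rfl⟩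
  have hBl : (n : ℝ) ^ τa ≤ B := by rw [hB]; exact Nat.le_ceil _
  have hBu : (B : ℝ) < (n : ℝ) ^ τa + 1 := by
    rw [hB]; exact Nat.ceil_lt_add_one (Real.rpow_nonneg (Nat.cast_nonneg _) _)
  have hBY : B ≤ Y := by
    rw [hY]
    refine Nat.le_floor ?_
    linarith
  have hBX : B ≤ X := by
    rw [hX]
    refine Nat.le_floor ?_
    have : (n' : ℝ) ^ τb / (8 * m) = 1 / (8 * m) * (n' : ℝ) ^ τb := by ring
    rw [this]
    linarith
  have hqX : q ≤ X := by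
    rw [hX]
    refine Nat.le_floor ?_
    have : (n' : ℝ) ^ τb / (8 * m) = 1 / (8 * m) * (n' : ℝ) ^ τb := by ring
    rw [this]
    rw [Real.rpow_zero] at f3
    linarith
  have hX2 : (2 * X : ℝ) ≤ (n : ℝ) ^ τb := by
    have g1 : (X : ℝ) ≤ (n' : ℝ) ^ τb / (8 * m) := by rw [hX]; exact Nat.floor_le (by positivity)
    have g2 : (n' : ℝ) ^ τb / (8 * m) ≤ (n' : ℝ) ^ τb / 8 := by
      refine div_le_div_of_nonneg_left (by positivity) (by norm_num) ?_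
      have : (1 : ℝ) ≤ m := by exact_mod_cast hm
      linarith
    have g3 : (n' : ℝ) ^ τb ≤ (n : ℝ) ^ τb := Real.rpow_le_rpow hn'0.le hnn'R hτb0.le
    have g4 : (0 : ℝ) < (n' : ℝ) ^ τb := by positivity
    linarith
  have hYle : (Y : ℝ) ≤ (n' : ℝ) ^ τg := by rw [hY]; exact Nat.floor_le (by positivity)
  have key := hn₀ Ω μ t htm hti hqt n' (by omega) X hX ?_ r hrq (V2 k q (q * (m + 1)) Y r') ?_ ?_
  · refine le_trans (measureReal_mono ?_) (key.trans ?_)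
    · intro ω hω hmem
      apply hω
      rw [ht] at hmem
      obtain ⟨x, hx1, hx2⟩ := h4 k q m X Y B n' r r' (fun x => θ x ω) hk hq hrq hr'q hqX hBX hBY
        (fun x hx1 hx2 => hdvd x ω (hBl.trans (by exact_mod_cast hx1)) (hx2.trans hn'n)) m n' le_rfl hmem
      refine ⟨x, hx1, ?_⟩
      rw [hsum] at hx2
      rw [hnn, ← hx2]
    · have g1 : (4 * q ^ 2 : ℝ) ≤ n' := by exact_mod_cast (by omega : 4 * q ^ 2 ≤ n')
      have hn0 : (0 : ℝ) < n := by linarith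
      rw [div_le_div_iff₀ (by positivity) (by positivity), one_mul, one_mul]
      calc (n : ℝ) ^ 2 ≤ (2 * q * n') ^ 2 := pow_le_pow_left₀ hn0.le hnR 2
        _ = 4 * q ^ 2 * (n' : ℝ) ^ 2 := by ring
        _ ≤ n' * (n' : ℝ) ^ 2 := mul_le_mul_of_nonneg_right g1 (by positivity)
        _ = (n' : ℝ) ^ 3 := by ring
  · intro x v hx1 hx2 hv
    have g1 : (n : ℝ) ^ τa ≤ x := hBl.trans (by exact_mod_cast hBX.trans hx1)
    have g2 : (x : ℝ) ≤ (n : ℝ) ^ τb := by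
      refine le_trans ?_ hX2
      exact_mod_cast hx2
    refine (hdist x (q * v) g1 g2 (Dvd.intro _ rfl) hv).trans (measureReal_mono ?_)
    intro ω hω
    have hω' : θ x ω = q * v := hω
    show t x ω = v
    rw [ht]
    dsimp only
    rw [hω', Nat.mul_div_cancel_left _ (by omega)]
  · intro t1 t2 h12 z hz
    exact h3 k q m Y n' r' t1 t2 hk hq hr'q h12 z hz
  · intro ω y L hy1 hy2 hy3
    have hG1 : (1 : ℝ) ≤ K * (n' : ℝ) ^ β := by
      have g1 : (1 : ℝ) ≤ K := by exact_mod_cast hK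
      have g2 : (1 : ℝ) ≤ (n' : ℝ) ^ β := Real.one_le_rpow hn'R hβ0
      nlinarith
    have g3 := h2 (V2 k q (q * (m + 1)) Y r' (fun x => t x ω)) n' (K * (n' : ℝ) ^ β) (by omega) hG1
      (fun N hN1 hN2 => by
        rw [hβ]
        exact hG r' (fun x => t x ω) hr'q (fun x => hqt x ω) n' Y N (by omega) hYle hN1 hN2) y L hy1 hy2 hy3
    have g4 : ((2 * K : ℕ) : ℝ) * (n' : ℝ) ^ β = 2 * (K * (n' : ℝ) ^ β) := by push_cast; ring
    rw [g4]
    exact g3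

end Pool.Agent.V5helper75.WR
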